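import Mathlib

/-!
Common definitions for the proof that distinguishing Borel chromatic index `k` from `k+1` on
`n`-regular acyclic Borel graphs is `Σ¹₂`-complete (MP_535960).
-/

namespace Pool.Agent.H80.S12

open MeasureTheory Set

/-! ### Games -/

/-- The list of the first `n` values of `x`. -/
def pre {A : Type} (x : ℕ → A) (n : ℕ) : List A := (List.range n).map x

/-- Player I (who chooses `x 0, x 2, x 4, …`) has a winning strategy in the game in which he wants
`x ∈ W`. -/
def WinI {A : Type} (W : Set (ℕ → A)) : Prop :=
  ∃ σ : List A → A, ∀ x : ℕ → A, (∀ n, x (2 * n) = σ (pre x (2 * n))) → x ∈ W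

/-- Player II (who chooses `x 1, x 3, x 5, …`) has a winning strategy in the game in which she
wants `x ∉ W`. -/
def WinII {A : Type} (W : Set (ℕ → A)) : Prop :=
  ∃ τ : List A → A, ∀ x : ℕ → A, (∀ n, x (2 * n + 1) = τ (pre x (2 * n + 1))) → x ∉ W

/-! ### The group `Z_n * Z_q` acting on labelled trees -/

/-- The orders of the two factors. -/
def ord (n q : ℕ) : Bool → ℕ
  | false => n
  | true => q

/-- The factors (cyclic groups of order `n` and `q`). -/
abbrev Cyc (n q : ℕ) (i : Bool) : Type := Multiplicative (ZMod (ord n q i))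

/-- The free product `Z_n * Z_q`. -/
abbrev Gam (n q : ℕ) : Type := Monoid.CoprodI (Cyc n q)

/-- The element `j` of the factor `i`. -/
def rot {n q : ℕ} (i : Bool) (j : ZMod (ord n q i)) : Gam n q :=
  Monoid.CoprodI.of (M := Cyc n q) (i := i) (Multiplicative.ofAdd j)

/-- Labels: a sequence (which will be strictly increasing) and a number (which will be `< n`). -/
abbrev Lab : Type := (ℕ → ℕ) × ℕ

/-- Labellings of the group. -/
abbrev Conf (n q : ℕ) : Type := Gam n q → Lab

/-- The shift action. -/
def act {n q : ℕ} (γ : Gam n q) (y : Conf n q) : Conf n q := fun g => y (γ⁻¹ * g)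

/-- The `i`-th tail of `w`. -/
def sft (i : ℕ) (w : ℕ → ℕ) : ℕ → ℕ := fun m => w (m + i)

/-- `y` is a homomorphism to the hypergraph of consecutive tails: along a coset of the first factor
the sequence is constant and the number is rotated, along a coset of the second factor the number
is constant and the sequences are `z, Sz, …, S^{q-1} z` in cyclic order, for some strictly
increasing `z`. -/
structure IsHom {n q : ℕ} (y : Conf n q) : Prop where
  lt : ∀ g, (y g).2 < n
  one : ∀ g (j : ZMod n), y (g * rot false j) = ((y g).1, ((y g).2 + j.val) % n)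
  two : ∀ g, ∃ z : ℕ → ℕ, StrictMono z ∧ ∃ i : ZMod q, ∀ j : ZMod q,
    y (g * rot true j) = (sft (i + j).val z, (y g).2)

/-- `y` has trivial stabiliser. -/
def IsFree {n q : ℕ} (y : Conf n q) : Prop := ∀ γ : Gam n q, γ ≠ 1 → act γ y ≠ y

/-! ### Borel codes -/

/-- `Codes b c s A`: the part of the code `c` above the node `s` is well-founded and codes the set
`A`, where the label `m+1` stands for the basic set `b m` and the label `0` for the complement of
the union of the sets coded by the successors of the node. -/
inductive Codes {Q : Type} (b : ℕ → Set Q) (c : List ℕ → ℕ) : List ℕ → Set Q → Prop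
  | leaf (s : List ℕ) (m : ℕ) (h : c s = m + 1) : Codes b c s (b m)
  | node (s : List ℕ) (A : ℕ → Set Q) (h : c s = 0) (hA : ∀ i, Codes b c (s ++ [i]) (A i)) :
      Codes b c s (⋃ i, A i)ᶜ

/-! ### Borel edge colourings -/

/-- `G` has a Borel edge colouring with `k` colours. -/
def BorelEdgeCol {X : Type} [MeasurableSpace X] (G : SimpleGraph X) (k : ℕ) : Prop :=
  ∃ c : X × X → ℕ, Measurable c ∧
    (∀ x y, G.Adj x y → c (x, y) = c (y, x) ∧ c (x, y) < k) ∧
    (∀ x y z, G.Adj x y → G.Adj x z → y ≠ z → c (x, y) ≠ c (x, z))

end Pool.Agent.H80.S12
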